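import Pool.Agent.helper36.MD.Sparse

/-!
MP_e47675_co: graphs of arbitrary size in which all sets of `O(log n / d)` vertices are sparse.
-/

set_option autoImplicit false
open Finset

namespace Pool.Agent.Results.MP_e47675_co.LocallySparse

open Pool.Agent.helper36.MD

/-- For every `ε > 0` there are `C > 0` and `d₀` such that for every `d ≥ d₀`, every `η ∈ [0, 1]`
and every finite simple graph `G` (with any number `n` of vertices) with all degrees at least `d`:
if every set `R` of at most `C log n / d` vertices spans at most `η d |R|` edges, then Maker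
(moving first) can guarantee at least `((1 - η)/2 - ε) deg v` edges at every vertex `v`. -/
theorem result : ∀ ε : ℝ, 0 < ε → ∃ C : ℝ, 0 < C ∧ ∃ d₀ : ℕ, ∀ d : ℕ, d₀ ≤ d →
    ∀ η : ℝ, 0 ≤ η → η ≤ 1 →
    ∀ (V : Type) [Fintype V] [DecidableEq V] (G : SimpleGraph V) [DecidableRel G.Adj],
      (∀ v, d ≤ G.degree v) →
      (∀ R : Finset V, (R.card : ℝ) ≤ C * Real.log (Fintype.card V) / d →
        ((G.edgeFinset.filter (fun e => ∀ v ∈ e, v ∈ R)).card : ℝ) ≤ η * d * R.card) →
      MakerWins G.edgeFinset
        (fun M => ∀ v, ((1 - η) / 2 - ε) * (G.degree v : ℝ) ≤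
          ((M.filter (fun e => v ∈ e)).card : ℝ))
        G.edgeFinset.card true ∅ ∅ := by
  intro ε' hε'
  set ε : ℝ := min ε' 1 with hεdef
  have h0 : 0 < ε := lt_min hε' one_pos
  have h1 : ε ≤ 1 := min_le_right _ _
  have hεε : ε ≤ ε' := min_le_left _ _
  obtain ⟨d₀, hd₀⟩ := Filter.eventually_atTop.1 (asymp_sparse h0)
  refine ⟨2097152 / ε ^ 3, by positivity, d₀, fun d hd η hη0 hη1 V _ _ G _ hdeg hsp => ?_⟩
  obtain ⟨hlog, hd8, hd8'⟩ := hd₀ d hd
  have hd' : (8 : ℝ) ≤ d := by exact_mod_cast hd8'
  have hεd : 8 ≤ ε * d := by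
    rw [div_le_iff₀ h0] at hd8
    linarith
  rcases isEmpty_or_nonempty V with hV | hV
  · refine (game_of_strat (η := 0) G ⟨fun M B => M ⊆ G.edgeFinset ∧ B ⊆ G.edgeFinset ∧
      Disjoint M B, ?_, ?_, ?_, ?_, ?_⟩).mono (fun M _ v => (hV.false v).elim) _ _ _ _
    · exact ⟨empty_subset _, empty_subset _, disjoint_empty_left _⟩
    · exact fun M B h => h
    · intro M B h e he
      exact (hV.false (e1 e)).elim
    · intro M B h f hf
      exact (hV.false (e1 f)).elim
    · intro M B h hE v
      exact (hV.false v).elim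
  set N : ℕ := Fintype.card V with hN
  have hN1 : 1 ≤ N := Fintype.card_pos
  have hN1' : (1 : ℝ) ≤ N := by exact_mod_cast hN1
  have hlogN : 0 ≤ Real.log N := Real.log_nonneg hN1'
  set T : ℝ := 2097152 / ε ^ 3 * Real.log N / d with hT
  have hT0 : 0 ≤ T := by positivity
  set L : ℕ := max 2 ⌊T / 2⌋₊ with hL
  set q : ℕ := ⌈η * d⌉₊ + 2 with hq
  set g : ℕ := ⌈ε * d / 8⌉₊ with hg
  set p : ℕ := q + g with hp
  have hq1 : η * d + 2 ≤ q := by
    rw [hq]; push_cast
    linarith [Nat.le_ceil (η * d)]
  have hq2 : (q : ℝ) < η * d + 3 := by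
    rw [hq]; push_cast
    linarith [Nat.ceil_lt_add_one (a := η * d) (by positivity)]
  have hg1 : ε * d / 8 ≤ g := Nat.le_ceil _
  have hg2 : (g : ℝ) < ε * d / 8 + 1 := Nat.ceil_lt_add_one (by positivity)
  have hηd : η * d ≤ d := by nlinarith
  have hεd' : ε * d ≤ d := by nlinarith
  have hgpos : 0 < g := by
    have : (0 : ℝ) < g := by linarith
    exact_mod_cast this
  have hL2 : 2 ≤ L := le_max_left _ _
  have hLT : T / 4 ≤ L := by
    by_cases h : T < 8
    · have : (2 : ℝ) ≤ L := by exact_mod_cast hL2
      linarith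
    · push Not at h
      have h3 : T / 2 < ⌊T / 2⌋₊ + 1 := Nat.lt_floor_add_one _
      have h4 : (⌊T / 2⌋₊ : ℝ) ≤ L := by exact_mod_cast le_max_right _ _
      linarith
  have hLN : Real.log N ≤ ε ^ 3 * d / 524288 * L := by
    have h3 : Real.log N = ε ^ 3 * d / 524288 * (T / 4) := by
      rw [hT]
      field_simp
      ring
    rw [h3]
    exact mul_le_mul_of_nonneg_left hLT (by positivity)
  have hstrat : Strat G.edgeFinset (fun M B => ∀ v, (lead e1 e2 M B v : ℝ) ≤
      ((p + g + 1 : ℕ) : ℝ) / d * dg e1 e2 G.edgeFinset v) := by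
    refine sparse_strat (N := N) (q := q) (p := p) (g := g) (L := L) (by omega) ?_ hL2
      (by omega) ?_ (fun e he => ends_ne G he) (card_le_univ _) ?_ ?_ ?_
    · have : (g : ℝ) ≤ ((4 * d : ℕ) : ℝ) := by push_cast; linarith
      exact_mod_cast this
    · refine fun r h hr hrh => num_sparse h0 (by omega) hN1 hL2 ?_ ?_ (by omega) hg1 hlog hLN r h
        hr hrh
      · have : p - q = g := by omega
        rw [this]
        exact hg1
      · rw [hp]; push_cast
        linarith
    · intro v
      right
      rw [dg_edgeFinset]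
      exact hdeg v
    · intro v
      rw [dg_edgeFinset]
      exact (G.degree_lt_card_verts v).le
    · intro R hR
      have hfil : eIn e1 e2 G.edgeFinset R =
          (G.edgeFinset.filter (fun e => ∀ v ∈ e, v ∈ R)).card := by
        unfold eIn
        congr 1
        ext e
        rw [mem_filter, mem_filter]
        refine and_congr_right fun _ => ⟨fun h v hv => ?_, fun h => ⟨h _ ?_, h _ ?_⟩⟩
        · rcases (mem_iff_ends e v).1 hv with h' | h'
          · rw [← h']; exact h.1
          · rw [← h']; exact h.2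
        · exact (mem_iff_ends e _).2 (Or.inl rfl)
        · exact (mem_iff_ends e _).2 (Or.inr rfl)
      by_cases hRT : (R.card : ℝ) ≤ T
      · have h3 := hsp R hRT
        rw [← hfil] at h3
        have h4 : (eIn e1 e2 G.edgeFinset R : ℝ) ≤ q * R.card :=
          h3.trans (mul_le_mul_of_nonneg_right (by linarith) (by positivity))
        exact_mod_cast h4
      · -- then `L = 2` and `R` has at most four vertices
        push Not at hRT
        have hL4 : L = 2 := by
          by_contra hne
          have h5 : ⌊T / 2⌋₊ ≤ T / 2 := Nat.floor_le (by linarith)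
          have h6 : L = ⌊T / 2⌋₊ := by
            rcases max_choice 2 ⌊T / 2⌋₊ with h7 | h7
            · exact absurd (hL.trans h7) hne
            · exact hL.trans h7
          have h7 : (R.card : ℝ) ≤ 2 * (L : ℝ) := by exact_mod_cast hR
          rw [h6] at h7
          linarith
        have hR4 : R.card ≤ 4 := by omega
        have h5 : eIn e1 e2 G.edgeFinset R ≤ R.card.choose 2 := by
          rw [hfil, ← card_powersetCard 2 R]
          refine card_le_card_of_injOn (fun e => e.toFinset) (fun e he => ?_) ?_
          · rw [mem_coe, mem_filter] at he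
            rw [mem_coe, mem_powersetCard]
            refine ⟨fun v hv => he.2 v (Sym2.mem_toFinset.1 hv), ?_⟩
            exact Sym2.card_toFinset_of_not_isDiag e (G.not_isDiag_of_mem_edgeFinset he.1)
          · intro e _ e' _ h
            have h : e.toFinset = e'.toFinset := h
            refine Sym2.ext fun v => ?_
            rw [← Sym2.mem_toFinset, ← Sym2.mem_toFinset, h]
        have h6 : R.card.choose 2 ≤ 2 * R.card := by
          generalize R.card = m at hR4
          interval_cases m <;> decide
        have h7 : 2 * R.card ≤ q * R.card := Nat.mul_le_mul_right _ (by omega)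
        omega
  refine (game_of_strat G hstrat).mono (fun M h v => ?_) _ _ _ _
  refine le_trans ?_ (h v)
  refine mul_le_mul_of_nonneg_right ?_ (by positivity)
  have h3 : ((p + g + 1 : ℕ) : ℝ) / d ≤ η + 2 * ε := by
    rw [div_le_iff₀ (by linarith), hp]
    push_cast
    nlinarith
  linarith

end Pool.Agent.Results.MP_e47675_co.LocallySparse
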