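import Pool.Agent.H64MD.Third

/-!
MP_e47675_co: in the Maker-Breaker degree game on any finite graph of minimum degree at least `d`
(any number of vertices, `d` large) Maker gets almost a third of the edges at every vertex.
-/

set_option autoImplicit false

namespace Pool.Agent.Results.MP_e47675_co.OneThird

open Pool.Agent.helper36.MD Pool.Agent.H64MD

/-- For every `ε > 0` there is `d₀` such that for every `d ≥ d₀` and every finite simple graph
`G` with all degrees at least `d`, with no restriction on the number of vertices, Maker (moving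
first in the Maker-Breaker game on the edges of `G`) can guarantee to get at least
`(1/3 - ε) deg v` edges at every vertex `v`. -/
theorem result : ∀ ε : ℝ, 0 < ε → ∃ d₀ : ℕ, ∀ d : ℕ, d₀ ≤ d →
    ∀ (V : Type) [Fintype V] [DecidableEq V] (G : SimpleGraph V) [DecidableRel G.Adj],
      (∀ v, d ≤ G.degree v) →
      MakerWins G.edgeFinset
        (fun M => ∀ v, (1 / 3 - ε) * (G.degree v : ℝ) ≤
          ((M.filter (fun e => v ∈ e)).card : ℝ))
        G.edgeFinset.card true ∅ ∅ := by
  intro ε hε
  obtain ⟨d₀, hd₀⟩ := Filter.eventually_atTop.1 (asymp_third hε)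
  refine ⟨d₀, fun d hd V _ _ G _ hdeg => ?_⟩
  obtain ⟨h1, h2, h3⟩ := hd₀ d hd
  have hD : ∀ v, 1 ≤ ε * (G.degree v : ℝ) := fun v =>
    h2.trans (mul_le_mul_of_nonneg_left (by exact_mod_cast hdeg v) hε.le)
  refine (strat hε hD (reg_start hε h1 h3 hdeg)).wins fun M B _ _ _ _ hg v => ?_
  rw [← dg_eq_filter]
  exact hg v

end Pool.Agent.Results.MP_e47675_co.OneThird
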