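import Pool.Agent.helper36.MD.Final

/-!
MP_e47675_co: Maker gets almost half of the degree at every vertex, on every graph of minimum
degree at least `d` whose number of vertices is at most a tower of exponentials of height
`log d / (2 log log d)`.
-/

set_option autoImplicit false

namespace Pool.Agent.Results.MP_e47675_co.TowerBound

open Pool.Agent.helper36.MD

/-- For every `ε > 0` there is `d₀` such that for every `d ≥ d₀` and every finite simple graph
`G` with all degrees at least `d` and with at most `exp (exp (... (exp d)))` vertices, with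
`⌊log d / (2 log log d)⌋` exponentials, Maker (moving first in the Maker-Breaker game on the edges
of `G`) can guarantee to get at least `(1/2 - ε) deg v` edges at every vertex `v`. -/
theorem result : ∀ ε : ℝ, 0 < ε → ∃ d₀ : ℕ, ∀ d : ℕ, d₀ ≤ d →
    ∀ (V : Type) [Fintype V] [DecidableEq V] (G : SimpleGraph V) [DecidableRel G.Adj],
      (∀ v, d ≤ G.degree v) →
      (Fintype.card V : ℝ) ≤
        Real.exp^[⌊Real.log d / (2 * Real.log (Real.log d))⌋₊] d →
      MakerWins G.edgeFinset
        (fun M => ∀ v, (1 / 2 - ε) * (G.degree v : ℝ) ≤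
          ((M.filter (fun e => v ∈ e)).card : ℝ))
        G.edgeFinset.card true ∅ ∅ := by
  intro ε hε
  set κ : ℝ := min (2 * ε) 1 with hκ
  have h0 : 0 < κ := lt_min (by linarith) one_pos
  have h1 : κ ≤ 1 := min_le_right _ _
  have h2 : κ ≤ 2 * ε := min_le_left _ _
  obtain ⟨d₀, hd₀⟩ := Filter.eventually_atTop.1 (asymp h0 h1)
  refine ⟨max d₀ 1, fun d hd V _ _ G _ hdeg hcard => ?_⟩
  have hd1 : 1 ≤ d := (le_max_right _ _).trans hd
  have hd1' : (1 : ℝ) ≤ d := by exact_mod_cast hd1
  have hnum := hd₀ d ((le_max_left _ _).trans hd)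
  set j : ℕ := ⌊Real.log d / (2 * Real.log (Real.log d))⌋₊ with hj
  set δ : ℝ := κ / (4 * (j : ℝ) + 1) with hδ
  have hδ0 : 0 < δ := by positivity
  have hδ1 : δ ≤ 1 := by
    rw [hδ, div_le_one (by positivity)]
    have : (0 : ℝ) ≤ j := by positivity
    linarith
  have hPP := tower hδ0 hδ1 j (4 * d) d (Fintype.card V) (by linarith) le_rfl
    (hcard.trans (iterate_exp_mono j (by linarith))) hnum
  have hη : δ * (4 * j + 1) = κ := by
    rw [hδ]
    field_simp
  rw [hη] at hPP
  refine (game_of_PP G hdeg hPP).mono (fun M h v => ?_) _ _ _ _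
  refine le_trans ?_ (h v)
  exact mul_le_mul_of_nonneg_right (by linarith) (by positivity)

end Pool.Agent.Results.MP_e47675_co.TowerBound
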